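import Pool.Agent.Helper72.RA.Defs2

set_option autoImplicit false

/-!
# RANGE: ranges of `1 / ρ`
-/

namespace Pool.Agent.Helper72.RA

open Real Finset MeasureTheory Filter

namespace RANGE

theorem qi_pos {q : ℕ} (hq : 0 < q) (k : ℕ) : 0 < qi q k := by
  unfold qi
  have : (0 : ℝ) < q := by exact_mod_cast hq
  positivity

theorem pow_qi {q : ℕ} (hq : 0 < q) {a b c : ℕ} (h : a + c = b) :
    (q : ℝ) ^ a * qi q b = qi q c := by
  unfold qi
  have : (0 : ℝ) < q := by exact_mod_cast hq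
  subst h
  field_simp
  ring

theorem qi_mul {q : ℕ} (a b : ℕ) : qi q a * qi q b = qi q (a + b) := by
  unfold qi
  rw [pow_add, mul_inv]

theorem qi_le {q : ℕ} (hq : 10 ^ 9 ≤ q) {a b : ℕ} (h : b + 1 ≤ a) :
    qi q a ≤ qi q b / 10 ^ 9 := by
  obtain ⟨c, rfl⟩ := Nat.exists_eq_add_of_le h
  have hq1 : (10 ^ 9 : ℝ) ≤ q := by exact_mod_cast hq
  have hq0 : 0 < q := lt_of_lt_of_le (by norm_num) hq
  have e : qi q (b + 1 + c) = qi q b * qi q (1 + c) := by rw [qi_mul, add_assoc]
  rw [e, div_eq_mul_inv]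
  refine mul_le_mul_of_nonneg_left ?_ (qi_pos hq0 b).le
  unfold qi
  refine inv_anti₀ (by positivity) (hq1.trans ?_)
  exact le_self_pow₀ (by linarith) (by omega)

theorem qi_one {q : ℕ} (hq : 10 ^ 9 ≤ q) {a : ℕ} (h : 1 ≤ a) : qi q a ≤ 1 / 10 ^ 9 := by
  have := qi_le hq (a := a) (b := 0) (by omega)
  have e : qi q 0 = 1 := by simp [qi]
  rwa [e] at this

/-- the geometric core -/
theorem core {pos rad R e α ρ δ : ℝ} (hpos : 0 < pos) (hrad : 0 < rad)
    (hR : R = √(pos ^ 2 + rad ^ 2)) (he : 0 ≤ e) (hα : |α - arctan (rad / pos)| ≤ δ)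
    (hρ : 0 < ρ) (h0 : 1 / R ≤ 1 / ρ) (h1 : 1 / ρ ≤ (1 + e) / R) :
    |ρ * cos α - pos| ≤ e * pos + R * δ ∧ |ρ * sin α - rad| ≤ e * rad + R * δ := by
  have hRpos : 0 < R := by
    rw [hR]
    positivity
  have hρR : ρ ≤ R := (one_div_le_one_div hRpos hρ).1 h0
  have hRρ : R ≤ (1 + e) * ρ := by
    rw [div_le_div_iff₀ hρ hRpos] at h1
    linarith
  set A : ℝ := arctan (rad / pos) with hA
  have hs : √(1 + (rad / pos) ^ 2) = R / pos := by
    rw [hR, Real.sqrt_eq_iff_mul_self_eq (by positivity) (by positivity)]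
    rw [div_mul_div_comm, Real.mul_self_sqrt (by positivity)]
    field_simp
  have hcosA : R * cos A = pos := by
    rw [hA, cos_arctan, hs]
    field_simp
  have hsinA : R * sin A = rad := by
    rw [hA, sin_arctan, hs]
    field_simp
  have hcosp : 0 < cos A := by
    have := hcosA
    by_contra hc
    have : R * cos A ≤ 0 := mul_nonpos_of_nonneg_of_nonpos hRpos.le (not_lt.1 hc)
    linarith
  have hsinp : 0 < sin A := by
    by_contra hc
    have : R * sin A ≤ 0 := mul_nonpos_of_nonneg_of_nonpos hRpos.le (not_lt.1 hc)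
    linarith
  have hlc : |cos α - cos A| ≤ δ := (Real.abs_cos_sub_cos_le α A).trans hα
  have hls : |sin α - sin A| ≤ δ := (Real.abs_sin_sub_sin_le α A).trans hα
  have hδ : 0 ≤ δ := (abs_nonneg _).trans hα
  have hgap : R - ρ ≤ e * R := by nlinarith
  constructor
  · have e1 : ρ * cos α - pos = ρ * (cos α - cos A) - (R - ρ) * cos A := by
      rw [← hcosA]
      ring
    rw [e1]
    refine (abs_sub _ _).trans ?_
    rw [abs_mul, abs_mul, abs_of_pos hρ, abs_of_pos hcosp, abs_of_nonneg (by linarith : 0 ≤ R - ρ)]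
    have a1 : ρ * |cos α - cos A| ≤ R * δ := mul_le_mul hρR hlc (abs_nonneg _) hRpos.le
    have a2 : (R - ρ) * cos A ≤ e * R * cos A := mul_le_mul_of_nonneg_right hgap hcosp.le
    have a3 : e * R * cos A = e * pos := by rw [mul_assoc, hcosA]
    linarith
  · have e1 : ρ * sin α - rad = ρ * (sin α - sin A) - (R - ρ) * sin A := by
      rw [← hsinA]
      ring
    rw [e1]
    refine (abs_sub _ _).trans ?_
    rw [abs_mul, abs_mul, abs_of_pos hρ, abs_of_pos hsinp, abs_of_nonneg (by linarith : 0 ≤ R - ρ)]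
    have a1 : ρ * |sin α - sin A| ≤ R * δ := mul_le_mul hρR hls (abs_nonneg _) hRpos.le
    have a2 : (R - ρ) * sin A ≤ e * R * sin A := mul_le_mul_of_nonneg_right hgap hsinp.le
    have a3 : e * R * sin A = e * rad := by rw [mul_assoc, hsinA]
    linarith

end RANGE

theorem st_RANGE (hLEV : ST_LEV) : ST_RANGE := by
  filter_upwards [hLEV] with q hq
  rintro m - - D k hk
  obtain ⟨hq9, hlow, hhigh, -, -, -, hmono, -, -, hUU, -⟩ := hq
  have hq1 : (10 ^ 9 : ℝ) ≤ q := by exact_mod_cast hq9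
  have hq0 : 0 < q := lt_of_lt_of_le (by norm_num) hq9
  have hqp : (0 : ℝ) < q := by exact_mod_cast hq0
  have P := RANGE.qi_pos hq0
  obtain ⟨Q, hQdef⟩ : ∃ Q, Q = (q : ℝ) ^ 1350 := ⟨_, rfl⟩
  rw [← hQdef] at hUU
  have hQ : Q * qi q 1394 = qi q 44 := by
    rw [hQdef]
    exact RANGE.pow_qi hq0 (by norm_num)
  clear hQdef
  -- facts on position and radius
  have hpr : 1 ≤ D.pos k ∧ 1 / 2 ≤ D.rad k := by
    rcases hk with h | h | h
    · obtain ⟨h1, h2, _⟩ := D.vr k h
      refine ⟨?_, by linarith⟩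
      rw [h1]
      have : 0 ≤ (D.lev k : ℝ) * (q : ℝ) ^ 10 := by positivity
      linarith
    · obtain ⟨h1, _, h2, _⟩ := D.hr k h
      exact ⟨h1, h2⟩
    · obtain ⟨h1, h2, _⟩ := D.gr k h
      refine ⟨?_, by linarith⟩
      rw [h1]
      have : 0 ≤ (Pl q (D.lev k) : ℝ) := Nat.cast_nonneg _
      linarith
  obtain ⟨hpos1, hrad1⟩ := hpr
  have hpos : 0 < D.pos k := by linarith
  have hrad : 0 < D.rad k := by linarith
  obtain ⟨R, hR⟩ : ∃ R, R = √(D.pos k ^ 2 + D.rad k ^ 2) := ⟨_, rfl⟩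
  have hRsq : R ^ 2 = D.pos k ^ 2 + D.rad k ^ 2 := by
    rw [hR, Real.sq_sqrt (by positivity)]
  have hR0 : 0 ≤ R := by
    rw [hR]
    exact Real.sqrt_nonneg _
  have hR1 : 1 ≤ R := by
    nlinarith
  have hRle : R ≤ D.pos k + D.rad k := by
    refine abs_le_of_sq_le_sq' ?_ (by linarith) |>.2
    nlinarith
  have hRp : 0 < R := by linarith
  have hδ : 0 ≤ qi q 1394 := (P _).le
  -- common part
  have key : ∀ e : ℝ, 0 ≤ e → e ≤ 1 → rgl D k ≤ e / R →
      (isF D k ∨ D.ty k = Ty.h → e * D.pos k + R * qi q 1394 ≤ qi q 860 ∧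
        e * D.rad k + R * qi q 1394 ≤ qi q 860) →
      (D.ty k = Ty.v → D.lev k = 0 → e * D.pos k + R * qi q 1394 ≤ qi q 999 ∧
        e * D.rad k + R * qi q 1394 ≤ qi q 999) →
      (D.ty k = Ty.g → e * D.pos k + R * qi q 1394 ≤ D.pos k / 1000 ∧
        e * D.rad k + R * qi q 1394 ≤ 1 / 500) →
      ∃ r0 r1 : ℝ, 0 < r0 ∧ r0 + rgl D k ≤ r1 ∧ r1 ≤ 2 ∧
        ∀ α : ℝ, |α - arctan (D.rad k / D.pos k)| ≤ qi q 1394 →
        ∀ ρ : ℝ, 0 < ρ → r0 ≤ 1 / ρ → 1 / ρ ≤ r1 →
          (isF D k ∨ D.ty k = Ty.h → |ρ * cos α - D.pos k| ≤ qi q 860 ∧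
            |ρ * sin α - D.rad k| ≤ qi q 860) ∧
          (D.ty k = Ty.v → D.lev k = 0 → |ρ * cos α - 1| ≤ qi q 999 ∧
            |ρ * sin α - D.rad k| ≤ qi q 999) ∧
          (D.ty k = Ty.g → |ρ * cos α - D.pos k| ≤ D.pos k / 1000 ∧
            |ρ * sin α - D.rad k| ≤ 1 / 500) := by
    intro e he he1 hrg c1 c2 c3
    refine ⟨1 / R, (1 + e) / R, by positivity, ?_, ?_, ?_⟩
    · rw [add_div]
      linarith
    · rw [div_le_iff₀ hRp]
      nlinarith
    · intro α hα ρ hρ hρ0 hρ1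
      obtain ⟨b1, b2⟩ := RANGE.core hpos hrad hR he hα hρ hρ0 hρ1
      refine ⟨fun h => ⟨b1.trans (c1 h).1, b2.trans (c1 h).2⟩, fun h h' => ?_,
        fun h => ⟨b1.trans (c3 h).1, b2.trans (c3 h).2⟩⟩
      have hp1 : D.pos k = 1 := by
        rw [(D.vr k h).1, h']
        simp
      have b3 := b1.trans (c2 h h').1
      rw [hp1] at b3
      exact ⟨b3, b2.trans (c2 h h').2⟩
  by_cases hv0 : D.ty k = Ty.v ∧ D.lev k = 0
  · -- first cluster
    obtain ⟨hv, hl⟩ := hv0
    obtain ⟨h1, h2, h3⟩ := D.vr k hv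
    have hp1 : D.pos k = 1 := by
      rw [h1, hl]
      simp
    have hR4 : R ≤ 4 := by
      rw [hp1] at hRle
      linarith
    have hR317 : R ≤ 32 / 10 := by
      rw [hp1] at hRsq
      nlinarith
    have a1 := RANGE.qi_le hq9 (a := 1394) (b := 999) (by norm_num)
    have a2 := RANGE.qi_le hq9 (a := 999) (b := 860) (by norm_num)
    have p1 := P 999
    have p2 := P 1394
    have p3 := P 860
    have hRq : R * qi q 1394 ≤ 4 * (qi q 999 / 10 ^ 9) :=
      mul_le_mul hR4 a1 p2.le (by norm_num)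
    have hlt : qi q 999 ≤ qi q 860 := by linarith
    have hq999 : qi q 999 ≤ 1 / 10 ^ 9 := RANGE.qi_one hq9 (by norm_num)
    refine key (qi q 999 / 10) (div_nonneg p1.le (by norm_num)) (by linarith) ?_ ?_ ?_ ?_
    · unfold rgl
      rw [if_pos ⟨hv, hl⟩, le_div_iff₀ hRp]
      nlinarith
    · intro _
      rw [hp1]
      constructor
      · linarith
      · have : qi q 999 / 10 * D.rad k ≤ qi q 999 / 10 * 3 :=
          mul_le_mul_of_nonneg_left h3 (div_nonneg p1.le (by norm_num))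
        linarith
    · intro _ _
      rw [hp1]
      constructor
      · linarith
      · have : qi q 999 / 10 * D.rad k ≤ qi q 999 / 10 * 3 :=
          mul_le_mul_of_nonneg_left h3 (div_nonneg p1.le (by norm_num))
        linarith
    · intro h
      rw [hv] at h
      cases h
  · by_cases hh : high D k
    · -- high
      obtain ⟨hg, hlev⟩ := hh
      obtain ⟨h1, h2, h3⟩ := D.gr k hg
      set Pk : ℝ := (Pl q (D.lev k) : ℝ) with hPk
      have hPlo : 3 * (q : ℝ) ^ 20 ≤ Pk := hhigh.trans (Nat.cast_le.2 (hmono _ _ hlev))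
      have hPhi : Pk ≤ 6 * Q := le_trans (Nat.cast_le.2 (hmono _ _ (D.lev_g k hg))) hUU
      have hq20 : (10 ^ 9 : ℝ) ≤ (q : ℝ) ^ 20 := hq1.trans (le_self_pow₀ (by linarith) (by norm_num))
      have hPk9 : (10 ^ 9 : ℝ) ≤ Pk := by linarith
      have hRP : R ≤ 3 / 2 * Pk := by linarith
      have p2 := P 1394
      have hRq : R * qi q 1394 ≤ 9 * qi q 44 := by
        have : R * qi q 1394 ≤ 3 / 2 * (6 * Q) * qi q 1394 :=
          mul_le_mul_of_nonneg_right (by linarith) p2.le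
        calc R * qi q 1394 ≤ 3 / 2 * (6 * Q) * qi q 1394 := this
          _ = 9 * (Q * qi q 1394) := by ring
          _ = _ := by rw [hQ]
      have hq44 : qi q 44 ≤ 1 / 10 ^ 9 := RANGE.qi_one hq9 (by norm_num)
      refine key (1 / 2000) (by norm_num) (by norm_num) ?_ ?_ ?_ ?_
      · unfold rgl
        rw [if_neg hv0, if_pos ⟨hg, hlev⟩, div_le_div_iff₀ (by positivity) hRp]
        linarith
      · rintro (h | h)
        · exfalso
          rcases h with h | ⟨_, h⟩
          · rw [hg] at h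
            cases h
          · omega
        · rw [hg] at h
          cases h
      · intro h
        rw [hg] at h
        cases h
      · intro _
        constructor <;> linarith
    · -- the others
      have hpR : D.pos k ≤ 7 * (q : ℝ) ^ 20 ∧ D.rad k ≤ (q : ℝ) ^ 22 + 1 := by
        have hq10 : (1 : ℝ) ≤ (q : ℝ) ^ 10 := one_le_pow₀ (by linarith)
        have hq20 : (q : ℝ) ^ 20 = (q : ℝ) ^ 10 * (q : ℝ) ^ 10 := by ring
        have hq22 : (10 ^ 9 : ℝ) ≤ (q : ℝ) ^ 22 :=
          hq1.trans (le_self_pow₀ (by linarith) (by norm_num))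
        rcases hk with h | h | h
        · obtain ⟨h1, h2, h3⟩ := D.vr k h
          have hl := D.lev_v k h
          have hl' : (D.lev k : ℝ) ≤ 2 := by exact_mod_cast (by omega : D.lev k ≤ 2)
          refine ⟨?_, by linarith⟩
          rw [h1, hq20]
          nlinarith
        · obtain ⟨_, h1, _, h2⟩ := D.hr k h
          exact ⟨h1, h2⟩
        · obtain ⟨h1, h2, h3⟩ := D.gr k h
          have hl : D.lev k < u0 q := by
            by_contra hc
            exact hh ⟨h, not_lt.1 hc⟩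
          have h4 := hlow _ hl
          refine ⟨?_, by linarith⟩
          rw [h1]
          nlinarith
      obtain ⟨hp7, hr22⟩ := hpR
      have hq20pos : (0 : ℝ) < (q : ℝ) ^ 20 := by positivity
      have hq22 : (q : ℝ) ^ 22 = (q : ℝ) ^ 2 * (q : ℝ) ^ 20 := by ring
      have hq2 : (10 ^ 9 : ℝ) ≤ (q : ℝ) ^ 2 := hq1.trans (le_self_pow₀ (by linarith) (by norm_num))
      have hq20' : (1 : ℝ) ≤ (q : ℝ) ^ 20 := one_le_pow₀ (by linarith)
      have hR22 : R ≤ 2 * (q : ℝ) ^ 22 := by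
        rw [hq22] at hr22 ⊢
        nlinarith
      have hrad22 : D.rad k ≤ 2 * (q : ℝ) ^ 22 := by
        rw [hq22] at hr22 ⊢
        nlinarith
      have e1 := RANGE.pow_qi hq0 (a := 22) (b := 1394) (c := 1372) (by norm_num)
      have e2 := RANGE.pow_qi hq0 (a := 20) (b := 890) (c := 870) (by norm_num)
      have e3 := RANGE.pow_qi hq0 (a := 22) (b := 890) (c := 868) (by norm_num)
      have a1 := RANGE.qi_le hq9 (a := 1372) (b := 860) (by norm_num)
      have a2 := RANGE.qi_le hq9 (a := 870) (b := 860) (by norm_num)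
      have a3 := RANGE.qi_le hq9 (a := 868) (b := 860) (by norm_num)
      have a4 : qi q 860 ≤ 1 / 10 ^ 9 := RANGE.qi_one hq9 (by norm_num)
      have p1 := P 1394
      have p2 := P 890
      have p3 := P 860
      have hRq : R * qi q 1394 ≤ 2 * qi q 1372 := by
        calc R * qi q 1394 ≤ 2 * (q : ℝ) ^ 22 * qi q 1394 := mul_le_mul_of_nonneg_right hR22 p1.le
          _ = 2 * ((q : ℝ) ^ 22 * qi q 1394) := by ring
          _ = _ := by rw [e1]
      have hpq : qi q 890 * D.pos k ≤ 7 * qi q 870 := by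
        calc qi q 890 * D.pos k ≤ qi q 890 * (7 * (q : ℝ) ^ 20) :=
              mul_le_mul_of_nonneg_left hp7 p2.le
          _ = 7 * ((q : ℝ) ^ 20 * qi q 890) := by ring
          _ = _ := by rw [e2]
      have hrq : qi q 890 * D.rad k ≤ 2 * qi q 868 := by
        calc qi q 890 * D.rad k ≤ qi q 890 * (2 * (q : ℝ) ^ 22) :=
              mul_le_mul_of_nonneg_left hrad22 p2.le
          _ = 2 * ((q : ℝ) ^ 22 * qi q 890) := by ring
          _ = _ := by rw [e3]
      have g1 : qi q 890 * D.pos k + R * qi q 1394 ≤ qi q 860 := by linarith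
      have g2 : qi q 890 * D.rad k + R * qi q 1394 ≤ qi q 860 := by linarith
      refine key (qi q 890) p2.le ((RANGE.qi_one hq9 (by norm_num)).trans (by norm_num))
        ?_ (fun _ => ⟨g1, g2⟩) (fun h h' => absurd ⟨h, h'⟩ hv0) (fun _ => ⟨?_, ?_⟩)
      · have hxp : D.ty k ≠ Ty.xp := by
          intro hx
          rcases hk with h | h | h <;> rw [hx] at h <;> cases h
        unfold rgl
        rw [if_neg hv0, if_neg hh, if_neg hxp, le_div_iff₀ hRp]
        have e4 : qi q 920 * R ≤ qi q 920 * (2 * (q : ℝ) ^ 22) :=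
          mul_le_mul_of_nonneg_left hR22 (P _).le
        have e5 := RANGE.pow_qi hq0 (a := 22) (b := 920) (c := 898) (by norm_num)
        have e6 : qi q 920 * (2 * (q : ℝ) ^ 22) = 2 * qi q 898 := by
          rw [← e5]
          ring
        have e7 := RANGE.qi_le hq9 (a := 898) (b := 890) (by norm_num)
        linarith
      · linarith
      · linarith

end Pool.Agent.Helper72.RA
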